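import Pool.Agent.helper96.SV.SpecA

set_option autoImplicit false

namespace Pool.Agent.SVA

open Polynomial Module

/-- exchange of a coordinate -/
def SIG_ex {K : Type} [DecidableEq K] {m : K → ℕ} (i : K)
    (x : Bx m × Fin (m i + 1)) : Bx m × Fin (m i + 1) :=
  (Function.update x.1 i x.2, x.1 i)

theorem SIG_ex_inv {K : Type} [DecidableEq K] {m : K → ℕ} (i : K) :
    Function.Involutive (SIG_ex (m := m) i) := by
  rintro ⟨β, j⟩
  unfold SIG_ex
  simp only [Function.update_idem, Function.update_self, Function.update_eq_self]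

theorem SIG_one {K : Type} [Fintype K] [DecidableEq K] {m : K → ℕ} (σ w : Bx m → ℂ) (i : K) :
    ∑ β : Bx m, ∑ j ∈ Finset.univ.erase (β i), σ (Function.update β i j) * w β =
      ∑ β : Bx m, ∑ j ∈ Finset.univ.erase (β i), σ β * w (Function.update β i j) := by
  have h1 : ∀ f : Bx m → Fin (m i + 1) → ℂ,
      ∑ β : Bx m, ∑ j ∈ Finset.univ.erase (β i), f β j =
        ∑ x : Bx m × Fin (m i + 1), if x.2 ≠ x.1 i then f x.1 x.2 else 0 := by
    intro f
    rw [Fintype.sum_prod_type]
    apply Finset.sum_congr rfl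
    intro β _
    rw [← Finset.sum_filter]
    apply Finset.sum_congr _ (fun _ _ => rfl)
    ext j
    simp
  rw [h1, h1]
  apply Fintype.sum_equiv (SIG_ex_inv (m := m) i).toPerm
  rintro ⟨β, j⟩
  show _ = if (SIG_ex i (β, j)).2 ≠ (SIG_ex i (β, j)).1 i then
    σ (SIG_ex i (β, j)).1 * w (Function.update (SIG_ex i (β, j)).1 i (SIG_ex i (β, j)).2) else 0
  unfold SIG_ex
  simp only [Function.update_idem, Function.update_self, Function.update_eq_self, ne_eq]
  by_cases h : j = β i
  · rw [if_neg (by simpa using h), if_neg (by simpa using h.symm)]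
  · rw [if_pos h, if_pos (fun h' => h h'.symm)]

theorem SIG_adj {K : Type} [Fintype K] [DecidableEq K] {m : K → ℕ} (σ w : Bx m → ℂ) :
    ∑ β, Mx σ β * w β = ∑ β, σ β * Mx w β := by
  unfold Mx
  simp only [add_mul, mul_add, Finset.sum_add_distrib, Finset.sum_mul, Finset.mul_sum]
  congr 1
  · apply Finset.sum_congr rfl
    intro β _
    ring
  · rw [Finset.sum_comm]
    conv_rhs => rw [Finset.sum_comm]
    apply Finset.sum_congr rfl
    intro i _
    exact SIG_one σ w i

theorem SIG : SIG_stmt := by
  classical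
  intro K _ _ m w α hα
  obtain ⟨σ₀, h0⟩ : ∃ σ₀ : Bx m → ℂ, Function.Injective σ₀ := by
    refine ⟨fun β => ((Fintype.equivFin (Bx m) β : ℕ) : ℂ), ?_⟩
    intro β γ h
    have h' : ((Fintype.equivFin (Bx m) β : ℕ) : ℂ) = ((Fintype.equivFin (Bx m) γ : ℕ) : ℂ) := h
    rw [Nat.cast_inj] at h'
    exact (Fintype.equivFin (Bx m)).injective (Fin.ext h')
  by_cases hs : ∑ β, Mx σ₀ β * w β = 0
  · obtain ⟨c, hc⟩ := Infinite.exists_notMem_finset
      (Finset.univ.image fun β : Bx m => σ₀ β - σ₀ α)
    have hc' : ∀ β, c ≠ σ₀ β - σ₀ α := by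
      intro β h
      exact hc (Finset.mem_image.2 ⟨β, Finset.mem_univ _, h.symm⟩)
    have hc0 : c ≠ 0 := by
      have := hc' α
      rwa [sub_self] at this
    refine ⟨fun β => σ₀ β + (if β = α then c else 0), ?_, ?_⟩
    · intro β γ h
      by_cases h1 : β = α
      · by_cases h2 : γ = α
        · rw [h1, h2]
        · exfalso
          simp only [h1, h2, if_true, if_false, add_zero] at h
          apply hc' γ
          rw [← h]
          ring
      · by_cases h2 : γ = α
        · exfalso
          simp only [h1, h2, if_true, if_false, add_zero] at h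
          apply hc' β
          rw [h]
          ring
        · simp only [h1, h2, if_false, add_zero] at h
          exact h0 h
    · rw [SIG_adj]
      rw [SIG_adj] at hs
      simp only [add_mul, Finset.sum_add_distrib]
      rw [hs, zero_add]
      simp only [ite_mul, zero_mul, Finset.sum_ite_eq', Finset.mem_univ, if_true]
      exact mul_ne_zero hc0 hα
  · exact ⟨σ₀, h0, hs⟩

end Pool.Agent.SVA
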